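import Mathlib

set_option autoImplicit false

open Submodule

namespace Pool.Agent.Results.MP_59a3d4_lc.NoSplit

universe u v w

variable {F : Type u} [Field F] {R : Type v} [AddCommGroup R] [Module F R] {ι : Type w}

/-- Given an injection of `ℕ ⊕ ℕ` into the index set of a basis, whose two branches name the
basis vectors `u k` (left) and `z k` (right), this is the value at a basis vector of the
idempotent map `P` with `P (u k) = u (k+1) + z k`,
`P (z k) = u (k+1) + z k - (u (k+2) + z (k+1))` and `P = 0` on all other basis vectors. -/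
noncomputable def pval (b : Module.Basis ι F R) (e : ℕ ⊕ ℕ ↪ ι) : ℕ ⊕ ℕ → R
  | Sum.inl k => b (e (Sum.inl (k + 1))) + b (e (Sum.inr k))
  | Sum.inr k => (b (e (Sum.inl (k + 1))) + b (e (Sum.inr k)))
      - (b (e (Sum.inl (k + 2))) + b (e (Sum.inr (k + 1))))

open Classical in
/-- Extension by zero of a function along the injection `e`. -/
noncomputable def extZero {X : Type*} [Zero X] (e : ℕ ⊕ ℕ ↪ ι) (g : ℕ ⊕ ℕ → X) (i : ι) : X :=
  if h : ∃ s, e s = i then g h.choose else 0

theorem extZero_apply {X : Type*} [Zero X] (e : ℕ ⊕ ℕ ↪ ι) (g : ℕ ⊕ ℕ → X) (s : ℕ ⊕ ℕ) :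
    extZero e g (e s) = g s := by
  have h : ∃ t, e t = e s := ⟨s, rfl⟩
  unfold extZero
  rw [dif_pos h]
  exact congrArg g (e.injective h.choose_spec)

theorem extZero_other {X : Type*} [Zero X] (e : ℕ ⊕ ℕ ↪ ι) (g : ℕ ⊕ ℕ → X) (i : ι)
    (h : ¬ ∃ s, e s = i) : extZero e g i = 0 := by
  unfold extZero
  rw [dif_neg h]

/-- The idempotent map. -/
noncomputable def P (b : Module.Basis ι F R) (e : ℕ ⊕ ℕ ↪ ι) : R →ₗ[F] R :=
  b.constr F (extZero e (pval b e))

theorem P_u (b : Module.Basis ι F R) (e : ℕ ⊕ ℕ ↪ ι) (k : ℕ) :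
    P b e (b (e (Sum.inl k))) = b (e (Sum.inl (k + 1))) + b (e (Sum.inr k)) := by
  unfold P
  rw [b.constr_basis, extZero_apply]
  rfl

theorem P_z (b : Module.Basis ι F R) (e : ℕ ⊕ ℕ ↪ ι) (k : ℕ) :
    P b e (b (e (Sum.inr k))) = (b (e (Sum.inl (k + 1))) + b (e (Sum.inr k)))
      - (b (e (Sum.inl (k + 2))) + b (e (Sum.inr (k + 1)))) := by
  unfold P
  rw [b.constr_basis, extZero_apply]
  rfl

theorem P_other (b : Module.Basis ι F R) (e : ℕ ⊕ ℕ ↪ ι) (i : ι) (h : ¬ ∃ s, e s = i) :
    P b e (b i) = 0 := by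
  unfold P
  rw [b.constr_basis, extZero_other e _ i h]

theorem P_idem (b : Module.Basis ι F R) (e : ℕ ⊕ ℕ ↪ ι) : IsIdempotentElem (P b e) := by
  refine b.ext fun i => ?_
  rw [Module.End.mul_apply]
  by_cases h : ∃ s, e s = i
  · obtain ⟨s, rfl⟩ := h
    rcases s with k | k
    · rw [P_u, map_add, P_u, P_z]
      abel
    · rw [P_z, map_sub, map_add, map_add, P_u, P_z, P_u, P_z]
      abel
  · rw [P_other b e i h, map_zero]

/-- The functional with prescribed values on the `u k`, `z k` and zero elsewhere. -/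
noncomputable def fn (b : Module.Basis ι F R) (e : ℕ ⊕ ℕ ↪ ι) (g : ℕ ⊕ ℕ → F) : R →ₗ[F] F :=
  b.constr F (extZero e g)

theorem fn_apply (b : Module.Basis ι F R) (e : ℕ ⊕ ℕ ↪ ι) (g : ℕ ⊕ ℕ → F) (s : ℕ ⊕ ℕ) :
    fn b e g (b (e s)) = g s := by
  unfold fn
  rw [b.constr_basis, extZero_apply]

theorem fn_other (b : Module.Basis ι F R) (e : ℕ ⊕ ℕ ↪ ι) (g : ℕ ⊕ ℕ → F) (i : ι)
    (h : ¬ ∃ s, e s = i) : fn b e g (b i) = 0 := by
  unfold fn
  rw [b.constr_basis, extZero_other e _ i h]

/-- A functional that vanishes on `V` and on `b '' I` is zero when they span. -/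
theorem fn_zero (b : Module.Basis ι F R) (V : Submodule F R) (I : Set ι)
    (hV : V ⊔ span F (b '' I) = ⊤) (f : R →ₗ[F] F) (h1 : ∀ x ∈ V, f x = 0)
    (h2 : ∀ i ∈ I, f (b i) = 0) (x : R) : f x = 0 := by
  have hle : V ⊔ span F (b '' I) ≤ LinearMap.ker f := by
    refine sup_le (fun x hx => LinearMap.mem_ker.2 (h1 x hx)) (span_le.2 ?_)
    rintro _ ⟨i, hi, rfl⟩
    exact LinearMap.mem_ker.2 (h2 i hi)
  rw [hV] at hle
  exact LinearMap.mem_ker.1 (hle (mem_top (x := x)))

/-- The recursive values of the obstructing functional on the `u k`. -/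
noncomputable def a (F : Type u) [Field F] (s : ℕ → Prop) [DecidablePred s] : ℕ → F
  | 0 => 1
  | (k + 1) => if s k then a F s k else 0

theorem core (b : Module.Basis ι F R) (e : ℕ ⊕ ℕ ↪ ι) (I₁ I₂ : Set ι)
    (hun : I₁ ∪ I₂ = Set.univ) (hd : Disjoint I₁ I₂)
    (h1 : IsCompl (LinearMap.range (P b e)) (span F (b '' I₁)))
    (h2 : IsCompl (LinearMap.ker (P b e)) (span F (b '' I₂))) : False := by
  classical
  have hcov : ∀ i, i ∈ I₁ ∨ i ∈ I₂ := fun i => by
    have : i ∈ I₁ ∪ I₂ := by rw [hun]; trivial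
    exact this
  have hdis : ∀ i, i ∈ I₁ → i ∈ I₂ → False := fun i ha hb => Set.disjoint_left.1 hd ha hb
  -- the first basis vector lies in the first part
  have hA : e (Sum.inl 0) ∈ I₁ := by
    rcases hcov (e (Sum.inl 0)) with h | h
    · exact h
    · exfalso
      let g : ℕ ⊕ ℕ → F := fun s => match s with
        | Sum.inl 0 => 1
        | _ => 0
      have hz := fn_zero b _ I₁ h1.sup_eq_top (fn b e g) ?_ ?_ (b (e (Sum.inl 0)))
      · rw [fn_apply] at hz
        exact one_ne_zero hz
      · rintro _ ⟨x, rfl⟩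
        have : (fn b e g) ∘ₗ (P b e) = 0 := by
          refine b.ext fun i => ?_
          by_cases hi : ∃ s, e s = i
          · obtain ⟨s, rfl⟩ := hi
            rcases s with k | k
            · simp only [LinearMap.comp_apply, P_u, map_add, fn_apply, g, LinearMap.zero_apply,
                add_zero]
            · simp only [LinearMap.comp_apply, P_z, map_add, map_sub, fn_apply, g,
                LinearMap.zero_apply, add_zero, sub_zero]
          · simp only [LinearMap.comp_apply, P_other b e i hi, map_zero, LinearMap.zero_apply]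
        exact LinearMap.congr_fun this x
      · intro i hi
        by_cases hi' : ∃ s, e s = i
        · obtain ⟨s, rfl⟩ := hi'
          rw [fn_apply]
          rcases s with (_ | k) | k
          · exact absurd h (fun h => hdis _ hi h)
          · rfl
          · rfl
        · exact fn_other b e g i hi'
  -- no pair lies entirely in the first part
  have hB : ∀ k, ¬ (e (Sum.inl (k + 1)) ∈ I₁ ∧ e (Sum.inr k) ∈ I₁) := by
    rintro k ⟨ha, hb⟩
    have hm1 : b (e (Sum.inl (k + 1))) + b (e (Sum.inr k)) ∈ LinearMap.range (P b e) :=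
      ⟨b (e (Sum.inl k)), P_u b e k⟩
    have hm2 : b (e (Sum.inl (k + 1))) + b (e (Sum.inr k)) ∈ span F (b '' I₁) :=
      add_mem (subset_span ⟨_, ha, rfl⟩) (subset_span ⟨_, hb, rfl⟩)
    have h0 : b (e (Sum.inl (k + 1))) + b (e (Sum.inr k)) = 0 :=
      Submodule.disjoint_def.1 h1.disjoint _ hm1 hm2
    have h3 := congrArg (fn b e (fun s => if s = Sum.inl (k + 1) then 1 else 0)) h0
    rw [map_add, fn_apply, fn_apply, map_zero] at h3
    simp at h3
  -- no pair lies entirely in the second part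
  have hC : ∀ k, ¬ (e (Sum.inl (k + 1)) ∈ I₂ ∧ e (Sum.inr k) ∈ I₂) := by
    rintro k ⟨ha, hb⟩
    let g : ℕ ⊕ ℕ → F := fun s =>
      (if s = Sum.inl (k + 1) then 1 else 0) - (if s = Sum.inr k then 1 else 0)
    have hpair : ∀ j : ℕ, g (Sum.inl (j + 1)) + g (Sum.inr j) = 0 := by
      intro j
      by_cases hj : j = k
      · subst hj; simp [g]
      · simp [g, hj]
    have hz := fn_zero b _ I₁ h1.sup_eq_top (fn b e g) ?_ ?_ (b (e (Sum.inl (k + 1))))
    · rw [fn_apply] at hz
      simp [g] at hz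
    · rintro _ ⟨x, rfl⟩
      have : (fn b e g) ∘ₗ (P b e) = 0 := by
        refine b.ext fun i => ?_
        by_cases hi : ∃ s, e s = i
        · obtain ⟨s, rfl⟩ := hi
          rcases s with j | j
          · rw [LinearMap.comp_apply, P_u, map_add, fn_apply, fn_apply, hpair]
            rfl
          · rw [LinearMap.comp_apply, P_z, map_sub, map_add, map_add, fn_apply, fn_apply,
              fn_apply, fn_apply, hpair, hpair (j + 1), sub_zero]
            rfl
        · simp only [LinearMap.comp_apply, P_other b e i hi, map_zero, LinearMap.zero_apply]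
      exact LinearMap.congr_fun this x
    · intro i hi
      by_cases hi' : ∃ s, e s = i
      · obtain ⟨s, rfl⟩ := hi'
        rw [fn_apply]
        have n1 : s ≠ Sum.inl (k + 1) := fun h => hdis _ (h ▸ hi) ha
        have n2 : s ≠ Sum.inr k := fun h => hdis _ (h ▸ hi) hb
        simp [g, n1, n2]
      · exact fn_other b e g i hi'
  -- the obstructing functional
  let s : ℕ → Prop := fun k => e (Sum.inr k) ∈ I₂
  let g : ℕ ⊕ ℕ → F := fun t => match t with
    | Sum.inl k => a F s k
    | Sum.inr k => a F s k - a F s (k + 1)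
  have hz := fn_zero b _ I₂ h2.sup_eq_top (fn b e g) ?_ ?_ (b (e (Sum.inl 0)))
  · rw [fn_apply] at hz
    exact one_ne_zero hz
  · intro x hx
    have : (fn b e g) ∘ₗ (P b e) = fn b e g := by
      refine b.ext fun i => ?_
      by_cases hi : ∃ s, e s = i
      · obtain ⟨s, rfl⟩ := hi
        rcases s with j | j
        · rw [LinearMap.comp_apply, P_u, map_add, fn_apply, fn_apply, fn_apply]
          simp only [g]
          ring
        · rw [LinearMap.comp_apply, P_z, map_sub, map_add, map_add, fn_apply, fn_apply,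
            fn_apply, fn_apply]
          simp only [g]
          ring
      · rw [LinearMap.comp_apply, P_other b e i hi, map_zero, fn_other b e g i hi]
    rw [← this, LinearMap.comp_apply, LinearMap.mem_ker.1 hx, map_zero]
  · intro i hi
    by_cases hi' : ∃ s, e s = i
    · obtain ⟨t, rfl⟩ := hi'
      rw [fn_apply]
      rcases t with (_ | k) | k
      · exact absurd hi (fun h => hdis _ hA h)
      · have hns : ¬ s k := fun h => hC k ⟨hi, h⟩
        simp only [g, a, if_neg hns]
      · have hs : s k := hi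
        simp only [g, a, if_pos hs, sub_self]
    · exact fn_other b e g i hi'

/-- In every infinite-dimensional vector space `R` over every field `F`, for every basis `B`
there is a direct sum decomposition `V₁ ⊕ V₂ = R` with respect to which `B` has no good
splitting. -/
theorem result (F : Type u) [Field F] (R : Type v) [AddCommGroup R] [Module F R]
    (hR : ¬ FiniteDimensional F R) (B : Set R) (hlin : LinearIndepOn F id B)
    (hspan : span F B = ⊤) :
    ∃ V₁ V₂ : Submodule F R, IsCompl V₁ V₂ ∧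
      ¬ ∃ B₁ B₂ : Set R, B₁ ∪ B₂ = B ∧ Disjoint B₁ B₂ ∧
        IsCompl V₁ (span F B₁) ∧ IsCompl V₂ (span F B₂) := by
  classical
  let b : Module.Basis B F R := Module.Basis.mk (v := ((↑) : B → R)) hlin (by
    rw [Subtype.range_coe_subtype]; simp [hspan])
  have hb : ∀ i : B, b i = (i : R) := fun i => Module.Basis.mk_apply _ _ i
  have hinf : Infinite B := by
    by_contra hfin
    rw [not_infinite_iff_finite] at hfin
    exact hR (Module.Finite.of_basis b)
  let e : ℕ ⊕ ℕ ↪ B := (Equiv.natSumNatEquivNat.toEmbedding).trans (Infinite.natEmbedding B)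
  refine ⟨LinearMap.range (P b e), LinearMap.ker (P b e),
    LinearMap.IsIdempotentElem.isCompl (P_idem b e), ?_⟩
  rintro ⟨B₁, B₂, hun, hd, h1, h2⟩
  have himg : ∀ C : Set R, C ⊆ B → b '' {i : B | (i : R) ∈ C} = C := by
    intro C hC
    ext x
    constructor
    · rintro ⟨i, hi, rfl⟩
      rw [hb i]; exact hi
    · intro hx
      exact ⟨⟨x, hC hx⟩, hx, hb _⟩
  have hB1 : B₁ ⊆ B := hun ▸ Set.subset_union_left
  have hB2 : B₂ ⊆ B := hun ▸ Set.subset_union_right
  refine core b e {i : B | (i : R) ∈ B₁} {i : B | (i : R) ∈ B₂} ?_ ?_ ?_ ?_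
  · ext i
    simp only [Set.mem_union, Set.mem_ofPred_eq, Set.mem_univ, iff_true]
    have : (i : R) ∈ B₁ ∪ B₂ := by rw [hun]; exact i.2
    exact this
  · rw [Set.disjoint_left]
    intro i hi hi'
    exact Set.disjoint_left.1 hd hi hi'
  · rw [himg B₁ hB1]; exact h1
  · rw [himg B₂ hB2]; exact h2

end Pool.Agent.Results.MP_59a3d4_lc.NoSplit
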